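import Pool.Agent.H586.GLU.Stm

/-!
# GLU-SD: the Schwinger-Dyson identity
-/

set_option autoImplicit false
set_option linter.unusedSectionVars false
set_option linter.unusedVariables false

open MeasureTheory Matrix Finset Filter Topology
open scoped Matrix.Norms.Frobenius

namespace Pool.Agent.H960.GLU

open Pool.Agent.H586.GLU
open Pool.Agent.N990 hiding CB CB_nonneg dd_le
open Pool.Agent.N109.Slab

noncomputable section

variable {N D L : ℕ} {G : Subgroup (UU N)}

lemma grp_add {X : Mt N} {γ : ℝ → G} (h : Grp X γ) (a b : ℝ) : γ (a + b) = γ a * γ b := by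
  refine mt_inj ?_
  rw [N990.mt_mul, h, h, h, add_smul]
  refine Matrix.exp_add_of_commute _ _ ?_
  exact ((Commute.refl X).smul_left a).smul_right b

lemma grp_zero {X : Mt N} {γ : ℝ → G} (h : Grp X γ) : γ 0 = 1 := by
  refine mt_inj ?_
  rw [h, N990.mt_one, zero_smul]
  exact NormedSpace.exp_zero

lemma vt_add {X : Mt N} {γ : ℝ → G} (h : Grp X γ) (ω : SF D L) (a b : ℝ) :
    vt γ ω (a + b) = vt γ ω a * vt γ ω b := by
  funext x c
  simp only [vt, Pi.mul_apply, add_mul]
  exact grp_add h _ _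

lemma vt_zero {X : Mt N} {γ : ℝ → G} (h : Grp X γ) (ω : SF D L) :
    vt γ ω 0 = (1 : Cf G D L) := by
  funext x c
  simp only [vt, Pi.one_apply, zero_mul]
  exact grp_zero h

lemma vt_out {X : Mt N} {γ : ℝ → G} (h : Grp X γ) {V : Finset (Site D)} {ω : SF D L}
    (hω : ∀ x, x ∉ V → ω x = 0) (t : ℝ) {x : Site D} (hx : x ∉ V) :
    vt γ ω t x = 1 := by
  funext c
  simp only [vt, hω x hx, Pi.zero_apply, mul_zero, Pi.one_apply]
  exact grp_zero h

/-- differentiability at every time -/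
lemma deriv_at {X : Mt N} {γ : ℝ → G} (h : Grp X γ) (ω : SF D L) {F F' : Cf G D L → ℝ}
    (hF : ∀ σ, HasDerivAt (fun t => F (vt γ ω t * σ)) (F' σ) 0) (σ : Cf G D L) (u : ℝ) :
    HasDerivAt (fun t => F (vt γ ω t * σ)) (F' (vt γ ω u * σ)) u := by
  have h1 := hF (vt γ ω u * σ)
  have h2 : HasDerivAt (fun t => F (vt γ ω t * (vt γ ω u * σ))) (F' (vt γ ω u * σ)) (u - u) := by
    rw [sub_self]; exact h1
  have h3 := h2.comp_sub_const u u
  refine h3.congr_of_eventuallyEq (Filter.Eventually.of_forall fun t => ?_)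
  show F (vt γ ω t * σ) = F (vt γ ω (t - u) * (vt γ ω u * σ))
  rw [← mul_assoc, ← vt_add h, sub_add_cancel]

theorem sd : S_SD := by
  intro N D L G _ _ β μ hμ X γ hγ V ω hω F F' H' C mF mF' mH' bF bF' bH' dF dH
  have := hμ.prob
  set H : Cf G D L → ℝ := fun σ => ∑ x ∈ Ns V, hx σ x with hH
  have mH : Measurable H := Finset.measurable_fun_sum _ fun x _ => hx_meas x
  set B : ℝ := (Ns V).card * ((4 * D + 4) * ((D + 1) * (4 * N * (D * L)))) with hB
  have bH : ∀ σ, |H σ| ≤ B := by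
    intro σ
    calc |H σ| ≤ ∑ x ∈ Ns V, |hx σ x| := Finset.abs_sum_le_sum_abs _ _
      _ ≤ ∑ x ∈ Ns V, ((4 * D + 4) * ((D + 1) * (4 * N * (D * L))) : ℝ) :=
          Finset.sum_le_sum fun x _ => hx_bd σ x
      _ = B := by rw [Finset.sum_const, nsmul_eq_mul]
  have hC : 0 ≤ C := (abs_nonneg _).trans (bF 1)
  -- the integrand
  set Φ : ℝ → Cf G D L → ℝ := fun u σ =>
    F (vt γ ω u * σ) * Real.exp (-(β * (H (vt γ ω u * σ) - H σ))) with hΦ
  set Ψ : ℝ → Cf G D L → ℝ := fun u σ =>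
    (F' (vt γ ω u * σ) - β * (F (vt γ ω u * σ) * H' (vt γ ω u * σ))) *
      Real.exp (-(β * (H (vt γ ω u * σ) - H σ))) with hΨ
  have hexp : ∀ u σ, Real.exp (-(β * (H (vt γ ω u * σ) - H σ))) ≤ Real.exp (|β| * (2 * B)) := by
    intro u σ
    refine Real.exp_le_exp.2 ?_
    calc -(β * (H (vt γ ω u * σ) - H σ)) ≤ |β * (H (vt γ ω u * σ) - H σ)| := neg_le_abs _
      _ = |β| * |H (vt γ ω u * σ) - H σ| := abs_mul _ _
      _ ≤ |β| * (2 * B) := by
          refine mul_le_mul_of_nonneg_left ?_ (abs_nonneg _)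
          calc |H (vt γ ω u * σ) - H σ| ≤ |H (vt γ ω u * σ)| + |H σ| := abs_sub _ _
            _ ≤ 2 * B := by linarith [bH (vt γ ω u * σ), bH σ]
  have mexp : ∀ u, Measurable fun σ => Real.exp (-(β * (H (vt γ ω u * σ) - H σ))) := fun u =>
    Real.measurable_exp.comp ((((mH.comp (mulv_meas _)).sub mH).const_mul β).neg)
  have mΦ : ∀ u, Measurable (Φ u) := fun u => (mF.comp (mulv_meas _)).mul (mexp u)
  have mΨ : ∀ u, Measurable (Ψ u) := fun u =>
    ((mF'.comp (mulv_meas _)).sub (((mF.comp (mulv_meas _)).mul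
      (mH'.comp (mulv_meas _))).const_mul β)).mul (mexp u)
  have bΦ : ∀ u σ, |Φ u σ| ≤ C * Real.exp (|β| * (2 * B)) := by
    intro u σ
    rw [hΦ]
    simp only
    rw [abs_mul, abs_of_pos (Real.exp_pos _)]
    exact mul_le_mul (bF _) (hexp u σ) (Real.exp_pos _).le hC
  have bΨ : ∀ u σ, |Ψ u σ| ≤ (C + |β| * (C * C)) * Real.exp (|β| * (2 * B)) := by
    intro u σ
    rw [hΨ]
    simp only
    rw [abs_mul, abs_of_pos (Real.exp_pos _)]
    refine mul_le_mul ?_ (hexp u σ) (Real.exp_pos _).le (by positivity)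
    refine (abs_sub _ _).trans (add_le_add (bF' _) ?_)
    rw [abs_mul, abs_mul]
    exact mul_le_mul_of_nonneg_left (mul_le_mul (bF _) (bH' _) (abs_nonneg _) hC) (abs_nonneg _)
  -- derivative of the integrand
  have dΦ : ∀ σ u, HasDerivAt (fun t => Φ t σ) (Ψ u σ) u := by
    intro σ u
    have d1 := deriv_at hγ ω dF σ u
    have d2 : HasDerivAt (fun t => H (vt γ ω t * σ)) (H' (vt γ ω u * σ)) u :=
      deriv_at hγ ω (F := H) dH σ u
    have d3 : HasDerivAt (fun t => -(β * (H (vt γ ω t * σ) - H σ)))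
        (-(β * H' (vt γ ω u * σ))) u := ((d2.sub_const (H σ)).const_mul β).neg
    have d4 := d1.mul d3.exp
    refine d4.congr_deriv ?_
    rw [hΨ]
    ring
  -- the shift identity
  have hI : ∀ u, ∫ σ, Φ u σ ∂μ = ∫ σ, F σ ∂μ := by
    intro u
    have h1 := hμ.set (V := V) (v := vt γ ω u) (fun x hx => vt_out hγ hω u hx) mF
      (Gd := Set.univ) MeasurableSet.univ
    simp only [Set.mem_univ, Set.ofPred_true, Measure.restrict_univ] at h1
    rw [h1]
    refine integral_congr_ae (Filter.Eventually.of_forall fun σ => ?_)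
    simp only [hΦ, hH, Finset.sum_sub_distrib]
  have key := hasDerivAt_integral_of_dominated_loc_of_deriv_le (μ := μ) (F := Φ) (F' := Ψ)
    (x₀ := (0 : ℝ)) (s := Set.univ)
    (bound := fun _ => (C + |β| * (C * C)) * Real.exp (|β| * (2 * B)))
    Filter.univ_mem (Filter.Eventually.of_forall fun u => (mΦ u).aestronglyMeasurable)
    (Integrable.of_bound (mΦ 0).aestronglyMeasurable (C * Real.exp (|β| * (2 * B)))
      (Filter.Eventually.of_forall fun σ => by rw [Real.norm_eq_abs]; exact bΦ 0 σ))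
    (mΨ 0).aestronglyMeasurable
    (Filter.Eventually.of_forall fun σ u _ => by rw [Real.norm_eq_abs]; exact bΨ u σ)
    (integrable_const _)
    (Filter.Eventually.of_forall fun σ u _ => dΦ σ u)
  have k1 := key.2
  have k2 : HasDerivAt (fun u => ∫ σ, Φ u σ ∂μ) 0 (0 : ℝ) := by
    have : (fun u => ∫ σ, Φ u σ ∂μ) = fun _ : ℝ => ∫ σ, F σ ∂μ := funext hI
    rw [this]
    exact hasDerivAt_const _ _
  have k3 : ∫ σ, Ψ 0 σ ∂μ = 0 := k1.unique k2
  have k4 : ∀ σ, Ψ 0 σ = F' σ - β * (F σ * H' σ) := by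
    intro σ
    simp only [hΨ, vt_zero hγ ω, one_mul, sub_self, mul_zero, neg_zero, Real.exp_zero, mul_one]
  simp only [k4] at k3
  have i1 : Integrable F' μ := Integrable.of_bound mF'.aestronglyMeasurable C
    (Filter.Eventually.of_forall fun σ => by rw [Real.norm_eq_abs]; exact bF' σ)
  have i2 : Integrable (fun σ => F σ * H' σ) μ :=
    Integrable.of_bound (mF.mul mH').aestronglyMeasurable (C * C)
    (Filter.Eventually.of_forall fun σ => by
      rw [Real.norm_eq_abs, abs_mul]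
      exact mul_le_mul (bF _) (bH' _) (abs_nonneg _) hC)
  rw [integral_sub i1 (i2.const_mul β), integral_const_mul] at k3
  linarith

end

end Pool.Agent.H960.GLU
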